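import Pool.Agent.TH755.BL.Cls

/-!
# Rudimentary sets, spectra, and oracles tossed with biased coins

Spectra are the sets in `NE`, and the rudimentary sets are the sets in the linear time hierarchy. Let
`C` be a relativized class of languages which contains the languages decided by one random question
of linear length (`OneQ`) and is contained in the class given by alternating quantifiers of linear
length in front of polynomial time with polynomial advice and with questions of linear length
(`InLH`), for instance the linear time hierarchy. The exact bias up to which a random oracle, tossed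
by an adversary, forces that `NE` is not contained in `C`:

* If, for every `δ > 0`, `1 / 2 - ε m ≥ 2 ^ (-δ m)` for infinitely many `m`, then, for every
  `ε`-biased law and almost every oracle `A`, `P` (so `NE`) is not contained in `C` relative to `A`.
* Otherwise, for some `ε`-biased law and almost every `A`, `NE` is contained in `C` relative to `A`.
-/

set_option autoImplicit false

namespace Pool.Agent.Results.MP_023469_lc.BiasedOracles

open Pool.Agent.NPC Pool.Agent.H620R2.Gauge Pool.Agent.H622R2.Exp Pool.Agent.TH93.LN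
open Pool.Agent.W900.BC (Biased)
open MeasureTheory Filter

theorem result (ε : ℕ → ℝ) (hε : ∀ n, 0 ≤ ε n) (C : Oracle → Set (List Bool) → Prop)
    (h₁ : ∀ A L, OneQ A L → C A L) (h₂ : ∀ A L, C A L → InLH A L) :
    ((∀ δ : ℝ, 0 < δ → ∃ᶠ m : ℕ in atTop, (2 : ℝ) ^ (-(δ * m)) ≤ 1 / 2 - ε m) →
      ∀ μ : Measure Oracle, IsProbabilityMeasure μ → Biased ε μ →
        ∀ᵐ A ∂μ, ∃ L, IsP A L ∧ InNTime Lin A L ∧ ¬ C A L) ∧
    ((¬ ∀ δ : ℝ, 0 < δ → ∃ᶠ m : ℕ in atTop, (2 : ℝ) ^ (-(δ * m)) ≤ 1 / 2 - ε m) →
      ∃ μ : Measure Oracle, IsProbabilityMeasure μ ∧ Biased ε μ ∧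
        ∀ᵐ A ∂μ, ∀ L, InNTime Lin A L → C A L) := by
  refine ⟨fun h μ hμ hb => ?_, fun h => ?_⟩
  · filter_upwards [Pool.Agent.TH755.BL.pos h hb Pool.Agent.TH755.BL.PsiH] with A h1
    exact ⟨_, h1.1, (IsP.inTime h1.1).isNTime,
      fun h3 => h1.2 (Pool.Agent.TH755.BL.lh_sub (h₂ A _ h3))⟩
  · obtain ⟨μ, h1, h2, h3⟩ := Pool.Agent.TH755.BL.neg hε h
    refine ⟨μ, h1, h2, ?_⟩
    filter_upwards [h3] with A hA L hL
    exact h₁ A L (hA L hL)

end Pool.Agent.Results.MP_023469_lc.BiasedOracles
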