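import Pool.Agent.TH93.LN.Fin

/-!
# How many strings of a random oracle have to be changed to make `NE` rudimentary?

An adversary who knows the random oracle `O` changes, for all large `n`, at most `g n` of the
strings of length at most `n`; the result is the oracle `A`. Spectra are the sets in `NE`, and the
rudimentary sets are the sets in the linear time hierarchy. Let `C` be a relativized class of
languages which contains the languages decided by one random question of linear length (`OneQ`) and
is contained in the class given by alternating quantifiers of linear length in front of polynomial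
time with polynomial advice and with questions of linear length (`InLH`), for instance the linear
time hierarchy. `InTime Lin A` is the class `E` relative to `A`, and `InNTime Lin A` is `NE`.

* If, for every `ε > 0`, `g n ≤ 2 ^ (ε n)` for infinitely many `n`, then for almost every `O` and
  for all these `A`, `E` (so `NE`) is not contained in `C` relative to `A`.
* Otherwise every oracle `O` can be changed such that `NE` is contained in `C` relative to `A`.
-/

set_option autoImplicit false

namespace Pool.Agent.Results.MP_023469_lc.ChangedStrings

open Pool.Agent.NPC Pool.Agent.H620R2.Gauge Pool.Agent.H622R2.Exp Pool.Agent.TH93.LN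
open Pool.Agent.H628R3.RO (randomOracle)
open Pool.Agent.W900.CH (Close)
open MeasureTheory

theorem result (g : ℕ → ℝ) (C : Oracle → Set (List Bool) → Prop)
    (h₁ : ∀ A L, OneQ A L → C A L) (h₂ : ∀ A L, C A L → InLH A L) :
    ((∀ ε : ℝ, 0 < ε → ∃ᶠ n : ℕ in Filter.atTop, g n ≤ 2 ^ (ε * (n : ℝ))) →
      ∀ᵐ O ∂randomOracle, ∀ A : Oracle, Close g O A →
        ∃ L, InTime Lin A L ∧ ¬ C A L) ∧
    ((¬ ∀ ε : ℝ, 0 < ε → ∃ᶠ n : ℕ in Filter.atTop, g n ≤ 2 ^ (ε * (n : ℝ))) →
      ∀ O : Oracle, ∃ A : Oracle, Close g O A ∧ ∀ L, InNTime Lin A L → C A L) :=
  neChanged g C h₁ h₂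

end Pool.Agent.Results.MP_023469_lc.ChangedStrings
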