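import Pool.Agent.TH93.LN.Fin

/-!
# The oracles relative to which `NE` is rudimentary

Spectra are the sets in `NE`, and the rudimentary sets are the sets in the linear time hierarchy.
Let `C` be a relativized class of languages which contains the languages decided by one random
question of linear length (`OneQ`) and is contained in the class given by alternating quantifiers of
linear length in front of polynomial time with polynomial advice and with questions of linear length
(`InLH`), for instance the linear time hierarchy. `InTime Lin A` is the class `E` relative to `A`,
and `InNTime Lin A` is `NE`. For every gauge `f`, the set of the oracles relative to which `NE` is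
contained in `C`, the set of the oracles relative to which `E` is contained in `C`, and all sets `O`
in between are null sets for `f` if and only if for every `ε > 0` there are infinitely many `N` with
`f N ≤ N ^ ε`.
-/

set_option autoImplicit false

namespace Pool.Agent.Results.MP_023469_lc.GaugeThreshold

open Pool.Agent.NPC Pool.Agent.H620R2.Gauge Pool.Agent.H622R2.Exp Pool.Agent.TH93.LN

theorem result (f : ℕ → ℝ) (C : Oracle → Set (List Bool) → Prop)
    (h₁ : ∀ A L, OneQ A L → C A L) (h₂ : ∀ A L, C A L → InLH A L) (O : Set Oracle)
    (h₃ : {A : Oracle | ∀ L, InNTime Lin A L → C A L} ⊆ O)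
    (h₄ : O ⊆ {A : Oracle | ∀ L, InTime Lin A L → C A L}) :
    Null f O ↔ ∀ ε : ℝ, 0 < ε → ∃ᶠ N : ℕ in Filter.atTop, f N ≤ (N : ℝ) ^ ε :=
  neGauge f C h₁ h₂ O h₃ h₄

end Pool.Agent.Results.MP_023469_lc.GaugeThreshold
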