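import Pool.Agent.TH565.OM.RudM

/-!
# Rudimentary sets versus spectra: planar modular lattices suffice

Definitions used: `LP` (the language of one binary relation symbol) and `rl` (the binary relation
of a structure for it) in `Pool/Agent/TH686/SP/Pos.lean`; `Rud` (rudimentary set of numbers, the
same closure as in the frozen statement `S14319`) in `Pool/Agent/TH686/SP/Rud.lean`; `ModLat`
(modular lattices as partially ordered sets) and `Dim2Le` (order dimension at most two) in
`Pool/Agent/TH565/OM/Lat.lean`.
-/

set_option autoImplicit false

open FirstOrder Pool.Agent.TH686.SP Pool.Agent.TH195.SG Pool.Agent.TH565.OM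

namespace Pool.Agent.Results.MP_023469_lc.PlanarModularLattices

/-- Every spectrum of a first-order sentence is rudimentary. -/
def SpectraRud : Prop :=
  ∀ (L : FirstOrder.Language.{0, 0}) (φ : L.Sentence),
    Rud {n : ℕ | 0 < n ∧ ∃ (M : Type) (_ : L.Structure M), Nat.card M = n ∧ φ.Realize M}

/-- For every sentence `φ` about one binary relation the set of sizes of the models of `φ` in the
class `C` is rudimentary. -/
def SpectraRudOver (C : ∀ M : Type, (M → M → Prop) → Prop) : Prop :=
  ∀ φ : LP.Sentence,
    Rud {n : ℕ | 0 < n ∧ ∃ (M : Type) (S : LP.Structure M), Nat.card M = n ∧ C M (rl M S) ∧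
      φ.Realize M}

/-- Every spectrum is rudimentary if and only if every spectrum over finite modular lattices of
order dimension at most two (planar modular lattices) is. Moreover, for every class `C` of binary
relations which contains these finite lattices, if all spectra over `C` are rudimentary, then so
are all spectra. -/
theorem result :
    (SpectraRud ↔ SpectraRudOver (fun _ r => ModLat r ∧ Dim2Le r)) ∧
    (∀ C : ∀ M : Type, (M → M → Prop) → Prop,
      (∀ (M : Type) (r : M → M → Prop), Finite M → ModLat r → Dim2Le r → C M r) →
      SpectraRudOver C → SpectraRud) :=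
  ⟨lat_rud_main, fun C hC h => lat_rud C hC h⟩

end Pool.Agent.Results.MP_023469_lc.PlanarModularLattices
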